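import Pool.Agent.Helper3.T5.Defs
import Pool.Agent.Helper3.T4.Decode

/-!
# T5, block J0, piece J1: number of pairs of vectors whose codes have a sum in a given class

The components of the vectors are `1` or primes.
-/

namespace Pool.Agent.Helper18.T5

open Finset Pool.Agent.Helper27.T4 Pool.Agent.Helper3.T4 Pool.Agent.Helper22.HW
  Pool.Agent.Helper22.SL Pool.Agent.Helper3.T5

/-- pairs of numbers, each `1` or prime, with a given product -/
theorem card_one_primes_le (S : Finset (ℕ × ℕ)) (m : ℕ)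
    (hS : ∀ q ∈ S, (q.1 = 1 ∨ q.1.Prime) ∧ (q.2 = 1 ∨ q.2.Prime) ∧ q.1 * q.2 = m) :
    S.card ≤ 2 := by
  classical
  rcases S.eq_empty_or_nonempty with h | ⟨q0, h0⟩
  · rw [h]; simp
  · obtain ⟨hp, hq, hm⟩ := hS q0 h0
    have hsub : S ⊆ {q0, (q0.2, q0.1)} := by
      intro q hqS
      obtain ⟨hp', hq', hm'⟩ := hS q hqS
      have heq : q.1 * q.2 = q0.1 * q0.2 := by rw [hm, hm']
      rw [Finset.mem_insert, Finset.mem_singleton]
      rcases hp' with h1 | h1
      · rw [h1, one_mul] at heq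
        have h2 : q0.1 = 1 ∨ q0.2 = 1 := by
          rcases hq' with h3 | h3
          · left
            rw [h3] at heq
            exact Nat.eq_one_of_mul_eq_one_right heq.symm
          · rw [heq] at h3
            rcases Nat.prime_mul_iff.1 h3 with h4 | h4
            · exact Or.inr h4.2
            · exact Or.inl h4.2
        rcases h2 with h2 | h2
        · left
          refine Prod.ext (h1.trans h2.symm) ?_
          rw [heq, h2, one_mul]
        · right
          refine Prod.ext (h1.trans h2.symm) ?_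
          rw [heq, h2, mul_one]
      · have hd : q.1 ∣ q0.1 * q0.2 := by rw [← heq]; exact dvd_mul_right _ _
        have aux : ∀ r : ℕ, (r = 1 ∨ r.Prime) → q.1 ∣ r → q.1 = r := by
          intro r hr hd
          rcases hr with hr | hr
          · rw [hr] at hd
            exact absurd (Nat.dvd_one.1 hd) h1.ne_one
          · exact (Nat.prime_dvd_prime_iff_eq h1 hr).1 hd
        rcases (Nat.Prime.dvd_mul h1).1 hd with h | h
        · have h2 := aux _ hp h
          left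
          refine Prod.ext h2 ?_
          rw [← h2] at heq
          exact Nat.eq_of_mul_eq_mul_left h1.pos heq
        · have h2 := aux _ hq h
          right
          refine Prod.ext h2 ?_
          rw [← h2, mul_comm q0.1] at heq
          exact Nat.eq_of_mul_eq_mul_left h1.pos heq
    exact le_trans (Finset.card_le_card hsub) Finset.card_le_two

/-- the square of a component -/
theorem sq_le_of_one_or {p c x : ℕ} (hp : 0 < p) (h : x = 1 ∨ (x.Prime ∧ x ^ 2 < p ^ c)) :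
    x ^ 2 ≤ p ^ c := by
  rcases h with h | h
  · rw [h, one_pow]
    exact Nat.one_le_pow _ _ hp
  · exact h.2.le

/-- quotient of the product by `p ^ (d + 1)` -/
theorem quot_lt {p : ℕ} (hp : p.Prime) (a b d x y : ℕ) (hx : x ^ 2 ≤ p ^ a)
    (hy : y ^ 2 ≤ p ^ b) : (x * y) / p ^ (d + 1) < p ^ ((a + b - 2 * d) / 2) := by
  by_contra hcon
  rw [not_lt] at hcon
  have h1 : p ^ ((a + b - 2 * d) / 2) * p ^ (d + 1) ≤ x * y :=
    le_trans (Nat.mul_le_mul_right _ hcon) (Nat.div_mul_le_self _ _)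
  have h2 : (p ^ ((a + b - 2 * d) / 2) * p ^ (d + 1)) ^ 2 ≤ p ^ (a + b) := by
    calc (p ^ ((a + b - 2 * d) / 2) * p ^ (d + 1)) ^ 2 ≤ (x * y) ^ 2 :=
          Nat.pow_le_pow_left h1 2
      _ = x ^ 2 * y ^ 2 := by ring
      _ ≤ p ^ a * p ^ b := Nat.mul_le_mul hx hy
      _ = p ^ (a + b) := (pow_add _ _ _).symm
  rw [← pow_add, ← pow_mul] at h2
  have h3 := (Nat.pow_le_pow_iff_right hp.one_lt).1 h2
  omega

/-- pairs, one component -/
theorem card_comp_le {p : ℕ} (hp : p.Prime) (hp2 : p ≠ 2) (a b d : ℕ) (t : ZMod (p ^ d))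
    (S : Finset (ℕ × ℕ))
    (hS : ∀ q ∈ S, q.1.Coprime p ∧ q.2.Coprime p ∧
      (q.1 = 1 ∨ (q.1.Prime ∧ q.1 ^ 2 < p ^ a)) ∧ (q.2 = 1 ∨ (q.2.Prime ∧ q.2 ^ 2 < p ^ b)) ∧
      Lg p d q.1 + Lg p d q.2 = t) :
    S.card ≤ 2 * (p - 1) * p ^ ((a + b - 2 * d) / 2) := by
  classical
  set T := ((Finset.range (p ^ (d + 1))).filter (fun m => m.Coprime p ∧ Lg p d m = t)) ×ˢ
    Finset.range (p ^ ((a + b - 2 * d) / 2)) with hT
  have hTc : T.card ≤ (p - 1) * p ^ ((a + b - 2 * d) / 2) := by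
    rw [hT, Finset.card_product, Finset.card_range]
    exact Nat.mul_le_mul_right _ (card_Lg_le hp hp2 d t)
  rw [mul_assoc]
  refine le_trans (Finset.card_le_mul_card_image_of_maps_to
    (f := fun q : ℕ × ℕ => ((q.1 * q.2) % p ^ (d + 1), (q.1 * q.2) / p ^ (d + 1)))
    (t := T) ?_ 2 ?_) (Nat.mul_le_mul_left 2 hTc)
  · intro q hq
    obtain ⟨h3, h4, h5, h6, h7⟩ := hS q hq
    have hc : (q.1 * q.2).Coprime p := Nat.Coprime.mul_left h3 h4
    rw [hT, Finset.mem_product]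
    simp only [Finset.mem_filter, Finset.mem_range]
    refine ⟨⟨Nat.mod_lt _ (pow_pos hp.pos _), mod_coprime d _ hc, ?_⟩,
      quot_lt hp a b d q.1 q.2 (sq_le_of_one_or hp.pos h5) (sq_le_of_one_or hp.pos h6)⟩
    rw [Lg_mod, Lg_mul hp hp2 d _ _ h3 h4, h7]
  · intro m _
    refine card_one_primes_le _ (m.1 + p ^ (d + 1) * m.2) ?_
    intro q hq
    rw [Finset.mem_filter] at hq
    obtain ⟨hq1, hq2⟩ := hq
    obtain ⟨_, _, h5, h6, _⟩ := hS q hq1
    refine ⟨h5.imp id (fun h => h.1), h6.imp id (fun h => h.1), ?_⟩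
    rw [← hq2]
    exact (Nat.mod_add_div _ _).symm

section

variable {ι : Type*} [Fintype ι] [DecidableEq ι] {p : ι → ℕ}

omit [DecidableEq ι] in
/-- the component of a code modulo `p i ^ b i` -/
theorem cv_cast_lower (hp : ∀ i, (p i).Prime) (hp2 : ∀ i, p i ≠ 2)
    (hinj : Function.Injective p) (e b : ι → ℕ) (hbe : ∀ i, b i ≤ e i)
    (ρ : ∀ i, ZMod (p i ^ e i)) (y : ι → ℕ) (i : ι) (hy : (y i).Coprime (p i)) :
    ((cv hp hinj e (fun i => Lg (p i) (e i) (y i) + ρ i) : ℕ) : ZMod (p i ^ b i)) =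
      Lg (p i) (b i) (y i) +
      ZMod.castHom (pow_dvd_pow (p i) (hbe i)) (ZMod (p i ^ b i)) (ρ i) := by
  have h := congrArg (ZMod.castHom (pow_dvd_pow (p i) (hbe i)) (ZMod (p i ^ b i)))
    (cv_cast_comp hp hinj e (fun i => Lg (p i) (e i) (y i) + ρ i) i)
  rw [map_natCast, map_add, Lg_red (hp i) (hp2 i) _ _ _ hy (hbe i)] at h
  exact h

end

variable {ι κ : Type*} [Fintype ι] [DecidableEq ι] {M : MP ι κ} {Mk : κ → ℕ}

/-- J1: number of pairs of vectors in a class -/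
theorem base_count (hM : M.Ok Mk) (w : κ → ℕ) (b : ι → ℕ) (hb : ∀ i, b i ≤ M.e' i) (n : ℕ) :
    (M.prs hM w b n).card ≤ M.C * ∏ i, M.p i ^ ((M.c i + M.c' i - 2 * b i) / 2) := by
  classical
  have hbe : ∀ i, b i ≤ M.e i := fun i => (hb i).trans (hM.ee i)
  have hinj : Function.Injective
      (fun z : (ι → ℕ) × (ι → ℕ) => (fun i => (z.1 i, z.2 i) : ι → ℕ × ℕ)) := by
    intro z z' h
    refine Prod.ext ?_ ?_
    · funext i
      exact congrArg Prod.fst (congrFun h i)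
    · funext i
      exact congrArg Prod.snd (congrFun h i)
  rw [← Finset.card_image_of_injective _ hinj, MP.C, ← Finset.prod_mul_distrib]
  refine card_le_prod_of_rank M.rk _ _ ?_
  intro f g hg
  rw [Finset.mem_image] at hg
  obtain ⟨z0, hz0, rfl⟩ := hg
  refine card_comp_le (hM.prime f) (hM.odd f) (M.c f) (M.c' f) (b f)
    (((n : ℕ) : ZMod (M.p f ^ b f)) -
      ZMod.castHom (pow_dvd_pow (M.p f) (hbe f)) (ZMod (M.p f ^ b f)) (M.ρ w f z0.1) -
      ZMod.castHom (pow_dvd_pow (M.p f) (hb f)) (ZMod (M.p f ^ b f)) (M.ρ' w f z0.2)) _ ?_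
  intro u hu
  rw [Finset.mem_image] at hu
  obtain ⟨g', hg', rfl⟩ := hu
  rw [Finset.mem_filter, Finset.mem_image] at hg'
  obtain ⟨⟨z, hz, rfl⟩, hlow⟩ := hg'
  rw [MP.prs, Finset.mem_filter, Finset.mem_product] at hz
  obtain ⟨⟨hzX, hzX'⟩, hzn⟩ := hz
  have hA := hM.adm z.1 hzX f
  have hA' := hM.adm' z.2 hzX' f
  refine ⟨hA.1, hA'.1, hA.2, hA'.2, ?_⟩
  have h1 := (ZMod.natCast_eq_natCast_iff _ _ _).2 (hzn f)
  rw [Nat.cast_add, MP.cd, MP.cd',
    cv_cast_lower hM.prime hM.odd hM.inj M.e b hbe (fun i => M.ρ w i z.1) z.1 f hA.1,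
    cv_cast_lower hM.prime hM.odd hM.inj M.e' b hb (fun i => M.ρ' w i z.2) z.2 f hA'.1] at h1
  have hk : M.key f z.1 = M.key f z0.1 := by
    refine hM.dep f _ _ (fun j hj => ?_)
    have h2 := hlow j (hM.rank f j (Finset.mem_union_left _ hj))
    exact congrArg Prod.fst h2
  have hk' : M.key' f z.2 = M.key' f z0.2 := by
    refine hM.dep' f _ _ (fun j hj => ?_)
    have h2 := hlow j (hM.rank f j (Finset.mem_union_right _ hj))
    exact congrArg Prod.snd h2
  have hr : M.ρ w f z.1 = M.ρ w f z0.1 := by rw [MP.ρ, MP.ρ, hk]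
  have hr' : M.ρ' w f z.2 = M.ρ' w f z0.2 := by rw [MP.ρ', MP.ρ', hk']
  rw [hr, hr'] at h1
  rw [← h1]
  ring

end Pool.Agent.Helper18.T5
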