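import Mathlib

/-!
# T5 (MP_12a1af): the engine lemma

Two scales `K`, `K'` with independent random hash functions.  Labels `i` of a context have keys
`p i` (for `K`) and `p' i` (for `K'`); the first hashed family is used to bound degrees, the second
one to bound matchings.
-/

set_option autoImplicit false

open Finset

namespace Pool.Agent.Helper18.T5

section Pin

variable {K Z : Type*} [Fintype K] [Fintype Z]

open Classical in
/-- functions with `m` prescribed values -/
theorem pin_fun {m : ℕ} (k : Fin m → K) (hk : Function.Injective k) (w : Fin m → Z) :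
    ((univ : Finset (K → Z)).filter (fun H => ∀ a, H (k a) = w a)).card * Fintype.card Z ^ m ≤
      Fintype.card (K → Z) := by
  classical
  set S := (univ : Finset (K → Z)).filter (fun H => ∀ a, H (k a) = w a) with hS
  have h1 : (S ×ˢ (univ : Finset (Fin m → Z))).card ≤ (univ : Finset (K → Z)).card := by
    apply Finset.card_le_card_of_injOn
      (fun q : (K → Z) × (Fin m → Z) => fun x => if h : ∃ a, k a = x then q.2 h.choose else q.1 x)
    · intro q _
      exact Finset.mem_coe.mpr (Finset.mem_univ _)
    · rintro ⟨H, u⟩ hq ⟨H', u'⟩ hq' he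
      simp only [coe_product, Set.mem_prod, mem_coe] at hq hq'
      have hH := (Finset.mem_filter.mp hq.1).2
      have hH' := (Finset.mem_filter.mp hq'.1).2
      have hu : u = u' := by
        funext a
        have h2 := congrFun he (k a)
        have hex : ∃ b, k b = k a := ⟨a, rfl⟩
        simp only [dif_pos hex] at h2
        have h3 : hex.choose = a := hk hex.choose_spec
        rw [h3] at h2
        exact h2
      have hHH : H = H' := by
        funext x
        by_cases hx : ∃ a, k a = x
        · obtain ⟨a, rfl⟩ := hx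
          rw [hH a, hH' a]
        · have h2 := congrFun he x
          simp only [dif_neg hx] at h2
          exact h2
      rw [hu, hHH]
  rw [Finset.card_product, Finset.card_univ, Finset.card_univ, Fintype.card_fun,
    Fintype.card_fin] at h1
  exact h1

end Pin

section One

variable {K Z δ : Type*} [Fintype K] [Fintype Z]

open Classical in
/-- one-sided fresh keys -/
theorem fresh_one (Y : Finset δ) (k : δ → K) (W : δ → Finset Z) (m : ℕ) (B : Finset (K → Z))
    (hB : ∀ H ∈ B, ∃ T ⊆ Y, T.card = m ∧ Set.InjOn k (T : Set δ) ∧ ∀ d ∈ T, H (k d) ∈ W d) :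
    B.card * Fintype.card Z ^ m ≤ Fintype.card (K → Z) * (∑ d ∈ Y, (W d).card) ^ m := by
  have hcov : B ⊆
      (Fintype.piFinset (fun _ : Fin m => Y)).biUnion (fun g =>
        (Fintype.piFinset (fun a : Fin m => W (g a))).biUnion (fun w =>
          (univ : Finset (K → Z)).filter (fun H => Function.Injective (fun a => k (g a)) ∧
            ∀ a, H (k (g a)) = w a))) := by
    intro H hH
    obtain ⟨T, hTY, hTc, hinj, hW⟩ := hB H hH
    let e := T.equivFinOfCardEq hTc
    have hmem : ∀ a : Fin m, ((e.symm a : T) : δ) ∈ T := fun a => (e.symm a).2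
    rw [Finset.mem_biUnion]
    refine ⟨fun a => (e.symm a : δ), ?_, ?_⟩
    · rw [Fintype.mem_piFinset]
      exact fun a => hTY (hmem a)
    rw [Finset.mem_biUnion]
    refine ⟨fun a => H (k (e.symm a : δ)), ?_, ?_⟩
    · rw [Fintype.mem_piFinset]
      exact fun a => hW _ (hmem a)
    rw [Finset.mem_filter]
    refine ⟨Finset.mem_univ _, ?_, fun a => rfl⟩
    intro a b hab
    have h1 := hinj (hmem a) (hmem b) hab
    exact e.symm.injective (Subtype.ext h1)
  have hone : ∀ g : Fin m → δ, ∀ w : Fin m → Z,
      ((univ : Finset (K → Z)).filter (fun H => Function.Injective (fun a => k (g a)) ∧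
            ∀ a, H (k (g a)) = w a)).card * Fintype.card Z ^ m ≤ Fintype.card (K → Z) := by
    intro g w
    by_cases hg : Function.Injective (fun a => k (g a))
    · refine le_trans (Nat.mul_le_mul_right _ (Finset.card_le_card ?_))
        (pin_fun (fun a => k (g a)) hg w)
      intro H hH
      rw [Finset.mem_filter] at hH ⊢
      exact ⟨hH.1, hH.2.2⟩
    · have hemp : ((univ : Finset (K → Z)).filter (fun H =>
          Function.Injective (fun a => k (g a)) ∧ ∀ a, H (k (g a)) = w a)) = ∅ := by
        apply Finset.filter_false_of_mem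
        intro H _ h
        exact hg h.1
      rw [hemp, Finset.card_empty, zero_mul]
      exact Nat.zero_le _
  calc _ ≤ (∑ g ∈ Fintype.piFinset (fun _ : Fin m => Y),
        ∑ w ∈ Fintype.piFinset (fun a : Fin m => W (g a)),
          ((univ : Finset (K → Z)).filter (fun H => Function.Injective (fun a => k (g a)) ∧
            ∀ a, H (k (g a)) = w a)).card) * Fintype.card Z ^ m := by
        apply Nat.mul_le_mul_right
        refine (Finset.card_le_card hcov).trans ?_
        exact Finset.card_biUnion_le.trans
          (Finset.sum_le_sum (fun g _ => Finset.card_biUnion_le))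
    _ = ∑ g ∈ Fintype.piFinset (fun _ : Fin m => Y),
        ∑ w ∈ Fintype.piFinset (fun a : Fin m => W (g a)),
          ((univ : Finset (K → Z)).filter (fun H => Function.Injective (fun a => k (g a)) ∧
            ∀ a, H (k (g a)) = w a)).card * Fintype.card Z ^ m := by
        rw [Finset.sum_mul]
        apply Finset.sum_congr rfl
        intro g _
        rw [Finset.sum_mul]
    _ ≤ ∑ g ∈ Fintype.piFinset (fun _ : Fin m => Y),
        ∑ _w ∈ Fintype.piFinset (fun a : Fin m => W (g a)), Fintype.card (K → Z) :=
        Finset.sum_le_sum (fun g _ => Finset.sum_le_sum (fun w _ => hone g w))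
    _ = Fintype.card (K → Z) * (∑ d ∈ Y, (W d).card) ^ m := by
        have h2 : ∀ g : Fin m → δ, (∑ _w ∈ Fintype.piFinset (fun a : Fin m => W (g a)),
            Fintype.card (K → Z)) = Fintype.card (K → Z) * ∏ a, (W (g a)).card := by
          intro g
          rw [Finset.sum_const, smul_eq_mul, Fintype.card_piFinset, mul_comm]
        rw [Finset.sum_congr rfl (fun g _ => h2 g), ← Finset.mul_sum]
        congr 1
        rw [← Fin.prod_const, Finset.prod_univ_sum]

end One

section Pair

variable {K K' Z Z' δ : Type*} [Fintype K] [Fintype Z] [Fintype K'] [Fintype Z']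

open Classical in
/-- two-sided fresh keys -/
theorem fresh_pair (Y : Finset δ) (k : δ → K) (k' : δ → K') (W : δ → Finset (Z × Z')) (m : ℕ)
    (B : Finset ((K → Z) × (K' → Z')))
    (hB : ∀ H ∈ B, ∃ T ⊆ Y, T.card = m ∧ Set.InjOn k (T : Set δ) ∧ Set.InjOn k' (T : Set δ) ∧
      ∀ d ∈ T, (H.1 (k d), H.2 (k' d)) ∈ W d) :
    B.card * (Fintype.card Z * Fintype.card Z') ^ m ≤
      Fintype.card ((K → Z) × (K' → Z')) * (∑ d ∈ Y, (W d).card) ^ m := by
  have hcov : B ⊆
      (Fintype.piFinset (fun _ : Fin m => Y)).biUnion (fun g =>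
        (Fintype.piFinset (fun a : Fin m => W (g a))).biUnion (fun w =>
          ((univ : Finset (K → Z)).filter (fun H => Function.Injective (fun a => k (g a)) ∧
            ∀ a, H (k (g a)) = (w a).1)) ×ˢ
          ((univ : Finset (K' → Z')).filter (fun H => Function.Injective (fun a => k' (g a)) ∧
            ∀ a, H (k' (g a)) = (w a).2)))) := by
    intro H hH
    obtain ⟨T, hTY, hTc, hinj, hinj', hW⟩ := hB H hH
    let e := T.equivFinOfCardEq hTc
    have hmem : ∀ a : Fin m, ((e.symm a : T) : δ) ∈ T := fun a => (e.symm a).2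
    rw [Finset.mem_biUnion]
    refine ⟨fun a => (e.symm a : δ), ?_, ?_⟩
    · rw [Fintype.mem_piFinset]
      exact fun a => hTY (hmem a)
    rw [Finset.mem_biUnion]
    refine ⟨fun a => (H.1 (k (e.symm a : δ)), H.2 (k' (e.symm a : δ))), ?_, ?_⟩
    · rw [Fintype.mem_piFinset]
      exact fun a => hW _ (hmem a)
    rw [Finset.mem_product, Finset.mem_filter, Finset.mem_filter]
    refine ⟨⟨Finset.mem_univ _, ?_, fun a => rfl⟩, ⟨Finset.mem_univ _, ?_, fun a => rfl⟩⟩
    · intro a b hab
      exact e.symm.injective (Subtype.ext (hinj (hmem a) (hmem b) hab))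
    · intro a b hab
      exact e.symm.injective (Subtype.ext (hinj' (hmem a) (hmem b) hab))
  have hone : ∀ g : Fin m → δ, ∀ w : Fin m → Z × Z',
      (((univ : Finset (K → Z)).filter (fun H => Function.Injective (fun a => k (g a)) ∧
            ∀ a, H (k (g a)) = (w a).1)) ×ˢ
          ((univ : Finset (K' → Z')).filter (fun H => Function.Injective (fun a => k' (g a)) ∧
            ∀ a, H (k' (g a)) = (w a).2))).card * (Fintype.card Z * Fintype.card Z') ^ m ≤
        Fintype.card ((K → Z) × (K' → Z')) := by
    intro g w
    rw [Finset.card_product, Fintype.card_prod, mul_pow]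
    have h1 : ((univ : Finset (K → Z)).filter (fun H => Function.Injective (fun a => k (g a)) ∧
            ∀ a, H (k (g a)) = (w a).1)).card * Fintype.card Z ^ m ≤ Fintype.card (K → Z) := by
      by_cases hg : Function.Injective (fun a => k (g a))
      · refine le_trans (Nat.mul_le_mul_right _ (Finset.card_le_card ?_))
          (pin_fun (fun a => k (g a)) hg (fun a => (w a).1))
        intro H hH
        rw [Finset.mem_filter] at hH ⊢
        exact ⟨hH.1, hH.2.2⟩
      · rw [Finset.filter_false_of_mem (fun H _ h => hg h.1), Finset.card_empty, zero_mul]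
        exact Nat.zero_le _
    have h2 : ((univ : Finset (K' → Z')).filter (fun H => Function.Injective (fun a => k' (g a)) ∧
            ∀ a, H (k' (g a)) = (w a).2)).card * Fintype.card Z' ^ m ≤ Fintype.card (K' → Z') := by
      by_cases hg : Function.Injective (fun a => k' (g a))
      · refine le_trans (Nat.mul_le_mul_right _ (Finset.card_le_card ?_))
          (pin_fun (fun a => k' (g a)) hg (fun a => (w a).2))
        intro H hH
        rw [Finset.mem_filter] at hH ⊢
        exact ⟨hH.1, hH.2.2⟩
      · rw [Finset.filter_false_of_mem (fun H _ h => hg h.1), Finset.card_empty, zero_mul]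
        exact Nat.zero_le _
    calc _ = (((univ : Finset (K → Z)).filter (fun H => Function.Injective (fun a => k (g a)) ∧
            ∀ a, H (k (g a)) = (w a).1)).card * Fintype.card Z ^ m) *
          (((univ : Finset (K' → Z')).filter (fun H => Function.Injective (fun a => k' (g a)) ∧
            ∀ a, H (k' (g a)) = (w a).2)).card * Fintype.card Z' ^ m) := by ring
      _ ≤ _ := Nat.mul_le_mul h1 h2
  calc _ ≤ (∑ g ∈ Fintype.piFinset (fun _ : Fin m => Y),
        ∑ w ∈ Fintype.piFinset (fun a : Fin m => W (g a)),
          (((univ : Finset (K → Z)).filter (fun H => Function.Injective (fun a => k (g a)) ∧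
            ∀ a, H (k (g a)) = (w a).1)) ×ˢ
          ((univ : Finset (K' → Z')).filter (fun H => Function.Injective (fun a => k' (g a)) ∧
            ∀ a, H (k' (g a)) = (w a).2))).card) * (Fintype.card Z * Fintype.card Z') ^ m := by
        apply Nat.mul_le_mul_right
        refine (Finset.card_le_card hcov).trans ?_
        exact Finset.card_biUnion_le.trans
          (Finset.sum_le_sum (fun g _ => Finset.card_biUnion_le))
    _ = ∑ g ∈ Fintype.piFinset (fun _ : Fin m => Y),
        ∑ w ∈ Fintype.piFinset (fun a : Fin m => W (g a)),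
          (((univ : Finset (K → Z)).filter (fun H => Function.Injective (fun a => k (g a)) ∧
            ∀ a, H (k (g a)) = (w a).1)) ×ˢ
          ((univ : Finset (K' → Z')).filter (fun H => Function.Injective (fun a => k' (g a)) ∧
            ∀ a, H (k' (g a)) = (w a).2))).card * (Fintype.card Z * Fintype.card Z') ^ m := by
        rw [Finset.sum_mul]
        apply Finset.sum_congr rfl
        intro g _
        rw [Finset.sum_mul]
    _ ≤ ∑ g ∈ Fintype.piFinset (fun _ : Fin m => Y),
        ∑ _w ∈ Fintype.piFinset (fun a : Fin m => W (g a)),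
          Fintype.card ((K → Z) × (K' → Z')) :=
        Finset.sum_le_sum (fun g _ => Finset.sum_le_sum (fun w _ => hone g w))
    _ = Fintype.card ((K → Z) × (K' → Z')) * (∑ d ∈ Y, (W d).card) ^ m := by
        have h2 : ∀ g : Fin m → δ, (∑ _w ∈ Fintype.piFinset (fun a : Fin m => W (g a)),
            Fintype.card ((K → Z) × (K' → Z'))) =
              Fintype.card ((K → Z) × (K' → Z')) * ∏ a, (W (g a)).card := by
          intro g
          rw [Finset.sum_const, smul_eq_mul, Fintype.card_piFinset, mul_comm]
        rw [Finset.sum_congr rfl (fun g _ => h2 g), ← Finset.mul_sum]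
        congr 1
        rw [← Fin.prod_const, Finset.prod_univ_sum]

end Pair

section Extract

variable {ι K K' : Type*} [DecidableEq ι] [DecidableEq K] [DecidableEq K']

/-- a large matching -/
theorem exists_matching (S : Finset ι) (k : ι → K) (k' : ι → K') (D m : ℕ)
    (h : ∀ x ∈ S, (S.filter (fun y => k y = k x)).card ≤ D)
    (h' : ∀ x ∈ S, (S.filter (fun y => k' y = k' x)).card ≤ D)
    (hS : 2 * D * m ≤ S.card) (hm : 0 < D) :
    ∃ T ⊆ S, T.card = m ∧ Set.InjOn k (T : Set ι) ∧ Set.InjOn k' (T : Set ι) := by
  classical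
  -- a maximal matching
  obtain ⟨F, hFdef⟩ : ∃ F : Finset (Finset ι), F = S.powerset.filter
    (fun T : Finset ι => Set.InjOn k (T : Set ι) ∧ Set.InjOn k' (T : Set ι)) := ⟨_, rfl⟩
  have hF : F.Nonempty := ⟨∅, by simp [hFdef]⟩
  obtain ⟨T, hT, hmax⟩ := F.exists_max_image (fun T : Finset ι => T.card) hF
  rw [hFdef] at hT
  have hT1 : T ⊆ S := Finset.mem_powerset.mp (Finset.mem_filter.mp hT).1
  have hT2 := (Finset.mem_filter.mp hT).2
  have hcov : S ⊆ T.biUnion (fun t => S.filter (fun y => k y = k t) ∪
      S.filter (fun y => k' y = k' t)) := by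
    intro x hx
    rw [Finset.mem_biUnion]
    by_contra hcon
    push Not at hcon
    have hxT : x ∉ T := by
      intro hxT
      apply hcon x hxT
      rw [Finset.mem_union, Finset.mem_filter]
      exact Or.inl ⟨hx, rfl⟩
    have hk : ∀ t ∈ T, k x ≠ k t := by
      intro t ht he
      apply hcon t ht
      rw [Finset.mem_union, Finset.mem_filter]
      exact Or.inl ⟨hx, he⟩
    have hk' : ∀ t ∈ T, k' x ≠ k' t := by
      intro t ht he
      apply hcon t ht
      rw [Finset.mem_union, Finset.mem_filter, Finset.mem_filter]
      exact Or.inr ⟨hx, he⟩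
    have hins : insert x T ∈ F := by
      rw [hFdef, Finset.mem_filter, Finset.mem_powerset]
      refine ⟨Finset.insert_subset hx hT1, ?_, ?_⟩
      · rw [Finset.coe_insert, Set.injOn_insert (by exact_mod_cast hxT)]
        refine ⟨hT2.1, ?_⟩
        rintro ⟨t, ht, he⟩
        exact hk t ht he.symm
      · rw [Finset.coe_insert, Set.injOn_insert (by exact_mod_cast hxT)]
        refine ⟨hT2.2, ?_⟩
        rintro ⟨t, ht, he⟩
        exact hk' t ht he.symm
    have h3 := hmax _ hins
    rw [Finset.card_insert_of_notMem hxT] at h3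
    omega
  have hcard : S.card ≤ T.card * (2 * D) := by
    refine (Finset.card_le_card hcov).trans ?_
    refine Finset.card_biUnion_le_card_mul _ _ _ ?_
    intro t ht
    refine (Finset.card_union_le _ _).trans ?_
    have h4 := h t (hT1 ht)
    have h5 := h' t (hT1 ht)
    omega
  have hTm : m ≤ T.card := by
    have h6 : (2 * D) * m ≤ (2 * D) * T.card := by
      rw [mul_comm (2 * D) T.card]
      exact hS.trans hcard
    exact Nat.le_of_mul_le_mul_left h6 (by omega)
  obtain ⟨T', hT', hc⟩ := Finset.exists_subset_card_eq hTm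
  refine ⟨T', hT'.trans hT1, hc, ?_, ?_⟩
  · exact hT2.1.mono (by exact_mod_cast hT')
  · exact hT2.2.mono (by exact_mod_cast hT')

end Extract

end Pool.Agent.Helper18.T5
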