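import Pool.Agent.Helper36.T5.MpRho
import Pool.Agent.Helper31.T5.Arcs
import Pool.Agent.Helper63.T5.SLNum

/-!
# T5a, block J0, case (c): the number of pairs of windows against the price of a label

`far_rho` : the output of `Helper31.T5.arcs_card'` (with `N0 = Nj l'`, `Ne = Nj (ef m 1 l)`) times
the price of a label of `mp m l' l` is at most `exp (-W / 50)`, if `7 W ≤ 20 D`, `D ≤ 200 W`.
-/

set_option autoImplicit false

namespace Pool.Agent.Helper18.T5

open Finset Pool.Agent.Helper27.T4 Pool.Agent.Helper27.T5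
open Pool.Agent.Helper5.ET hiding Key Mk keysOf AA Rp vlo vhi bkey
open Pool.Agent.Helper22.HW hiding fam
open Pool.Agent.Helper30.T5 Pool.Agent.Helper11.T5 Pool.Agent.Helper3.T5 Pool.Agent.Helper96.T5
open Pool.Agent.Helper36.T5 Pool.Agent.Helper31.T5 Pool.Agent.Helper63.T5

/-- size of the modulus of the first static level -/
theorem log_QQ_zero_ge {m k j : ℕ} (hk1 : 1 ≤ k) (hk : k + 2 ≤ m) (hb : 10 * m ≤ la j) :
    lam * ((W m j 1 : ℝ) - W m j 2) - 3 * Real.log (spb k) ≤ Real.log (QQ m j 0) := by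
  have h0 : Real.log (QQ m j 0) = ∑ f : Fin 3, Real.log (Qf m j 2 f) := by
    unfold QQ Qs
    push_cast
    rw [Real.log_prod]
    intro f _
    exact_mod_cast (Qf_pos m j 2 f).ne'
  have hr := Pool.Agent.Helper27.T5.rt_ge hb (show 0 < m by omega)
  have h1 : ∀ f : Fin 3, (dg m j 2 f : ℝ) * lam - Real.log (spb k) ≤ Real.log (Qf m j 2 f) := by
    intro f
    have e1 := le_log_Qf m j 2 f
    have e2 : Real.log (sp (3 * 2 + f)) ≤ Real.log (spb k) := by
      refine Real.log_le_log (by exact_mod_cast sp_pos _) ?_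
      exact_mod_cast sp_le_spb (show 2 ≤ k + 1 by omega) f
    have e3 : Real.log (10 ^ 6) = lam := rfl
    rw [e3] at e1
    linarith
  have h2 : ((∑ f : Fin 3, dg m j 2 f : ℕ) : ℝ) = (W m j 1 : ℝ) - W m j 2 := by
    rw [sum_dg (i := 2) (by omega) (by omega)]
    rw [Nat.cast_sub (Pool.Agent.Helper27.T5.W_anti (by omega))]
  rw [h0, ← h2]
  push_cast
  rw [Fin.sum_univ_three, Fin.sum_univ_three]
  have a0 := h1 0
  have a1 := h1 1
  have a2 := h1 2
  linarith

/-- `10 ^ 6` in exponential form -/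
theorem million_pow_exp (n : ℕ) : ((10 : ℝ) ^ 6) ^ n = Real.exp (lam * n) := by
  rw [mul_comm, Real.exp_nat_mul, lam, Real.exp_log (by norm_num)]

theorem pr_pow_exp (f : Fin 3) (n : ℕ) : (pr f : ℝ) ^ n = Real.exp (Real.log (pr f) * n) := by
  have h : (0 : ℝ) < (pr f : ℝ) := by
    have : (1000003 : ℝ) ≤ (pr f : ℝ) := by exact_mod_cast Pool.Agent.Helper36.T5.pr_ge f
    linarith
  rw [mul_comm, Real.exp_nat_mul, Real.exp_log h]

/-- **case (c)** -/
theorem far_rho (m k : ℕ) (hk1 : 1 ≤ k) (hk : k + 2 ≤ m) : ∃ j0 : ℕ, ∀ l' l : ℕ, j0 ≤ era l →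
    used m l → used m l' → l' ≤ l → era l' = era l → l - l' ≤ 200 * W m (era l) 1 →
    7 * W m (era l) 1 ≤ 20 * (l - l') → ∀ V : ℕ,
    V ≤ (10 ^ 6) ^ (W m (era l) 1 + W m (era l) 2) → ∀ E1 : ℕ,
    (E1 : ℝ) ≤ ((10 ^ 6) ^ (2 * W m (era l) 2) *
        (1 + ((2 * ((Nj (ef m 1 l) : ℝ) / Nj l') + V) / ((pr (fam (era l)) ^ (l - l') : ℕ) : ℝ)
          + 2) / Real.sqrt (QQ m (era l) 0))) *
      ((10 ^ 6) ^ (2 * W m (era l) 2) *
        (1 + min (2 * ((Nj (ef m 1 l) : ℝ) / Nj l')) V / Real.sqrt (QQ m (era l) 0))) →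
    (E1 : ℝ) * (((mp m l' l).C : ℝ) * (mp m l' l).Lam *
      (((mp m l' l).Ne' : ℝ) / (mp m l' l).Ne + 1 / (mp m l' l).q)) ≤
      Real.exp (-((W m (era l) 1 : ℝ) / 50)) := by
  obtain ⟨j1, h1⟩ := rho_mp_pow
  obtain ⟨j2, h2⟩ := exists_large m
  obtain ⟨j3, h3⟩ := exists_mul_W_le (m := m) (by omega) 16384
  obtain ⟨j4, h4⟩ := exists_log_pow_le_W (m := m) (by omega)
    (350 * (45 + 2 * Real.log (spb k)) + 150) 0
  refine ⟨max (max j1 j2) (max j3 j4), fun l' l hj hu hu' hl he hD hD7 V hV E1 hE1 => ?_⟩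
  have hb := h2 (era l) (by omega)
  have hW2 := h3 (era l) (by omega) 1 (by omega)
  have hc := h4 (era l) (by omega) 1 (by omega)
  rw [pow_zero, mul_one] at hc
  have hb' : 10 * m ≤ la (era l') := by rw [he]; exact hb
  have hm : 1 < m := by omega
  have hpr := h1 m l l' hm (by omega) hb hu hu' hl he hD
  set G := fam (era l) with hG
  set p : ℝ := (pr G : ℝ) with hp
  set Lp := Real.log p with hLp
  -- leads
  have hlt := lt_ef hb hm
  have hlt' := lt_ef (l := l') hb' hm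
  have l1 := two_ef_le m 1 l
  have l1' := two_ef_le m 1 l'
  have l2 := lt_ef_sub hb hm
  have l2' := lt_ef_sub (l := l') hb' hm
  have l3 := PP_mul hb hm
  rw [he] at l1' l2'
  set W1 := W m (era l) 1 with hW1d
  set W2 := W m (era l) 2 with hW2d
  have hs : 11 * W1 < 1024 * (ef m 1 l - l) := l2
  have hsu : 1024 * (ef m 1 l - l) ≤ 13 * W1 := by omega
  have hs' : 11 * W1 < 1024 * (ef m 1 l' - l') := l2'
  have hsu' : 1024 * (ef m 1 l' - l') ≤ 13 * W1 := by omega
  have hee : ef m 1 l - ef m 1 l' + (ef m 1 l' - l') = (l - l') + (ef m 1 l - l) :=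
    ef_sub_ef hb hm hl he
  have h2s : 2 * (ef m 1 l' - l') ≤ l - l' := by omega
  set s : ℕ := ef m 1 l - l with hsd
  set s' : ℕ := ef m 1 l' - l' with hsd'
  set D : ℕ := l - l' with hDd
  set ee : ℕ := ef m 1 l - ef m 1 l' with heed
  have hW2r : 16384 * (W2 : ℝ) ≤ W1 := by exact_mod_cast hW2
  have hsr : 11 * (W1 : ℝ) ≤ 1024 * s := by exact_mod_cast hs.le
  have hsur : 1024 * (s : ℝ) ≤ 13 * W1 := by exact_mod_cast hsu
  have hsr' : 11 * (W1 : ℝ) ≤ 1024 * s' := by exact_mod_cast hs'.le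
  have hsur' : 1024 * (s' : ℝ) ≤ 13 * W1 := by exact_mod_cast hsu'
  have hDr : 7 * (W1 : ℝ) ≤ 20 * D := by exact_mod_cast hD7
  have heer : (ee : ℝ) + s' = D + s := by exact_mod_cast hee
  have h2sr : 2 * (s' : ℝ) ≤ D := by exact_mod_cast h2s
  have lp1 : lam ≤ Lp := log_million_le_pr G
  have lp2 : Lp ≤ (1 + 1 / 100000) * lam := log_pr_le_million G
  have lg := lam_gt
  have lu := lam_lt
  have hW2n : (0 : ℝ) ≤ W2 := Nat.cast_nonneg _
  have hDn : (0 : ℝ) ≤ D := Nat.cast_nonneg _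
  have hsn : (0 : ℝ) ≤ s := Nat.cast_nonneg _
  have hsn' : (0 : ℝ) ≤ s' := Nat.cast_nonneg _
  have hspb : (0 : ℝ) ≤ Real.log (spb k) := by
    apply Real.log_nonneg
    exact_mod_cast one_le_spb k
  have hW1pos : (0 : ℝ) < W1 := by linarith
  -- the modulus
  have hQ := log_QQ_zero_ge (j := era l) hk1 hk hb
  rw [← hW1d, ← hW2d] at hQ
  have hQpos : (0 : ℝ) < QQ m (era l) 0 := by
    have : 0 < QQ m (era l) 0 := Qs_pos _ _ _
    exact_mod_cast this
  have hQ1 : (1 : ℝ) ≤ QQ m (era l) 0 := by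
    have : 0 < QQ m (era l) 0 := Qs_pos _ _ _
    exact_mod_cast this
  set w : ℝ := Real.sqrt (QQ m (era l) 0) with hw
  have hw1 : 1 ≤ w := Real.one_le_sqrt.2 hQ1
  set lw : ℝ := Real.log (QQ m (era l) 0) / 2 with hlw
  have hwexp : Real.exp lw = w := by
    rw [hw, Real.sqrt_eq_rpow, Real.rpow_def_of_pos hQpos]
    congr 1
    rw [hlw]
    ring
  -- the quotient of the fronts
  have hN : (Nj (ef m 1 l) : ℝ) / Nj l' = p ^ (D + s) := by
    have e1 := Nj_ef hu hb le_rfl hm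
    have e2 := Nj_era hl he
    have e3 : (Nj l' : ℝ) ≠ 0 := by exact_mod_cast (NN_pos pr_prime _).ne'
    rw [e1, e2]
    push_cast
    rw [pow_add]
    field_simp
    rfl
  rw [hN] at hE1
  have hqcast : ((pr G ^ D : ℕ) : ℝ) = p ^ D := by push_cast; rfl
  rw [hqcast] at hE1
  have hp1 : 1 ≤ p := by
    have : (1000003 : ℝ) ≤ (pr G : ℝ) := by exact_mod_cast Pool.Agent.Helper36.T5.pr_ge G
    rw [hp]; linarith
  -- arcs
  have hVr : (V : ℝ) ≤ Real.exp (lam * (W1 + W2)) := by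
    have e1 : (V : ℝ) ≤ ((10 : ℝ) ^ 6) ^ (W1 + W2) := by exact_mod_cast hV
    rw [million_pow_exp] at e1
    push_cast at e1
    exact e1
  have harc := arcs_exp (E := p ^ (D + s)) (V := V) (q := p ^ D) (w := w) (w' := w)
    (e := Lp * ((D : ℝ) + s)) (v := lam * (W1 + W2)) (lq := Lp * D) (lw := lw) (lw' := lw)
    (one_le_pow₀ hp1) hw1 hw1 (by positivity) (Nat.cast_nonneg _)
    (by rw [hp, pr_pow_exp]; push_cast; exact le_rfl) hVr
    (by rw [hp, pr_pow_exp]) hwexp.le hwexp.le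
  set MX : ℝ := max 0 (max (Lp * ((D : ℝ) + s)) (lam * (W1 + W2)) - Lp * D - lw) +
    max 0 (min (Lp * ((D : ℝ) + s)) (lam * (W1 + W2)) - lw) with hMX
  -- the exponent
  set c1 : ℝ := 45 + 2 * Real.log (spb k) with hc1
  have hlog45 : (2 * 10 ^ 19 : ℝ) ≤ Real.exp 45 := two_mul_le_exp
  have hfar := far_exp (lam := lam) (η := 1 / 100000) (D := D) (W := W1) (W2 := W2) (s := s)
    (s' := s') (e := Lp * ((D : ℝ) + s)) (v := lam * (W1 + W2)) (lq := Lp * D) (lw := lw)
    (lw' := lw) (ll := 45 + Lp * ((D : ℝ) / 2 - s')) (ln := Lp * ee) (c0 := lam * W2 + c1)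
    (by linarith) (by norm_num) le_rfl hW1pos hW2n (by positivity) (by linarith) (by linarith)
    (by linarith) (by linarith)
    (by
      have a1 : Lp * ((D : ℝ) + s) ≤ (1 + 1 / 100000) * lam * (D + s) :=
        mul_le_mul_of_nonneg_right lp2 (by positivity)
      have a2 : 0 ≤ lam * W2 + c1 := by positivity
      linarith)
    (by
      have a1 : lam * (W1 + W2) = lam * W1 + lam * W2 := by ring
      have a2 : lam * W1 ≤ lam * (1 + 1 / 100000) * W1 := by
        have : 0 ≤ lam * W1 := by positivity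
        linarith
      have a3 : 0 ≤ c1 := by positivity
      linarith)
    (by
      have a1 : lam * D ≤ Lp * D := mul_le_mul_of_nonneg_right lp1 hDn
      have a2 : 0 ≤ lam * W2 + c1 := by positivity
      linarith)
    (by
      rw [hlw]
      have a3 : 0 ≤ lam * W2 := by positivity
      linarith)
    (by
      rw [hlw]
      have a3 : 0 ≤ lam * W2 := by positivity
      linarith)
    (by
      have a0 : 0 ≤ (D : ℝ) / 2 - s' := by linarith
      have a1 : Lp * ((D : ℝ) / 2 - s') ≤ (1 + 1 / 100000) * lam * (D / 2 - s') :=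
        mul_le_mul_of_nonneg_right lp2 a0
      have a3 : 0 ≤ lam * W2 := by positivity
      linarith)
    (by
      have a0 : (ee : ℝ) = D + s - s' := by linarith
      have a1 : lam * ee ≤ Lp * ee := mul_le_mul_of_nonneg_right lp1 (Nat.cast_nonneg _)
      rw [a0] at a1
      have a2 : 0 ≤ lam * W2 + c1 := by positivity
      rw [a0]
      linarith)
  rw [← hMX] at hfar
  -- price
  have hprice : ((mp m l' l).C : ℝ) * (mp m l' l).Lam *
      (((mp m l' l).Ne' : ℝ) / (mp m l' l).Ne + 1 / (mp m l' l).q) ≤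
      Real.exp (45 + Lp * ((D : ℝ) / 2 - s') - Lp * ee) := by
    refine hpr.trans ?_
    have e1 : p ^ ((D - 2 * s') / 2) ≤ Real.exp (Lp * ((D : ℝ) / 2 - s')) := by
      rw [hp, pr_pow_exp]
      apply Real.exp_le_exp.2
      apply mul_le_mul_of_nonneg_left _ (by linarith)
      have e2 : 2 * ((D - 2 * s') / 2) + 2 * s' ≤ D := by omega
      have e3 : 2 * (((D - 2 * s') / 2 : ℕ) : ℝ) + 2 * s' ≤ D := by exact_mod_cast e2
      linarith
    have e2 : (p ^ ee)⁻¹ = Real.exp (-(Lp * ee)) := by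
      rw [hp, pr_pow_exp, Real.exp_neg]
    rw [e2]
    calc 2 * 10 ^ 19 * p ^ ((D - 2 * s') / 2) * Real.exp (-(Lp * ee))
        ≤ Real.exp 45 * Real.exp (Lp * ((D : ℝ) / 2 - s')) * Real.exp (-(Lp * ee)) := by
          gcongr
      _ = _ := by rw [← Real.exp_add, ← Real.exp_add]; congr 1
  -- number of pairs
  have hE2 : (E1 : ℝ) ≤ Real.exp (4 * (lam * W2) + 3 + MX) := by
    refine hE1.trans ?_
    rw [million_pow_exp]
    push_cast
    have e1 : Real.exp (lam * (2 * (W2 : ℝ))) * (1 + ((2 * p ^ (D + s) + V) / p ^ D + 2) / w) *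
        (Real.exp (lam * (2 * (W2 : ℝ))) * (1 + min (2 * p ^ (D + s)) V / w)) =
        Real.exp (4 * (lam * W2)) * ((1 + ((2 * p ^ (D + s) + V) / p ^ D + 2) / w) *
          (1 + min (2 * p ^ (D + s)) (V : ℝ) / w)) := by
      have : Real.exp (4 * (lam * W2)) =
          Real.exp (lam * (2 * (W2 : ℝ))) * Real.exp (lam * (2 * (W2 : ℝ))) := by
        rw [← Real.exp_add]; congr 1; ring
      rw [this]
      ring
    rw [e1]
    have e2 : (18 : ℝ) ≤ Real.exp 3 := by
      have e3 : Real.exp 3 = Real.exp 1 ^ 3 := by rw [← Real.exp_nat_mul]; norm_num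
      rw [e3]
      have e4 := Real.exp_one_gt_d9
      calc (18 : ℝ) ≤ (2.7182818283 : ℝ) ^ 3 := by norm_num
        _ ≤ _ := pow_le_pow_left₀ (by norm_num) e4.le 3
    calc _ ≤ Real.exp (4 * (lam * W2)) * (18 * Real.exp MX) :=
          mul_le_mul_of_nonneg_left harc (Real.exp_pos _).le
      _ ≤ Real.exp (4 * (lam * W2)) * (Real.exp 3 * Real.exp MX) := by gcongr
      _ = _ := by rw [← Real.exp_add, ← Real.exp_add]; congr 1; ring
  have hpos : 0 ≤ ((mp m l' l).C : ℝ) * (mp m l' l).Lam *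
      (((mp m l' l).Ne' : ℝ) / (mp m l' l).Ne + 1 / (mp m l' l).q) := by positivity
  calc _ ≤ Real.exp (4 * (lam * W2) + 3 + MX) *
        Real.exp (45 + Lp * ((D : ℝ) / 2 - s') - Lp * ee) :=
        mul_le_mul hE2 hprice hpos (Real.exp_pos _).le
    _ = Real.exp (4 * (lam * W2) + 3 + (MX + (45 + Lp * ((D : ℝ) / 2 - s')) - Lp * ee)) := by
        rw [← Real.exp_add]; congr 1; ring
    _ ≤ _ := by
        apply Real.exp_le_exp.2
        have b1 : lam * W2 ≤ 14 * W2 := mul_le_mul_of_nonneg_right lu.le hW2n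
        have b2 : 13 * (W1 : ℝ) ≤ lam * W1 := mul_le_mul_of_nonneg_right lg.le hW1pos.le
        linarith

end Pool.Agent.Helper18.T5
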