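import Pool.Agent.Helper22.SL.Defs
import Pool.Agent.Helper87.L3.Count

/-!
# T5, SL-N1: the pairs of windows which fit to a label are triples of `Helper87.L3.trip`
-/

set_option autoImplicit false

namespace Pool.Agent.Helper18.T5

open Finset Pool.Agent.Helper22.SL Pool.Agent.Helper87.L3

variable {κ : Type*}

theorem F_dvd_zero {P : Pr κ} {Mk : κ → ℕ} (hP : P.Ok Mk) : ∀ r ≤ P.h, P.F r ∣ P.F 0
  | 0, _ => dvd_rfl
  | r + 1, hr => (hP.FF r (by omega)).trans (F_dvd_zero hP r (by omega))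

theorem F'_dvd_zero {P : Pr κ} {Mk : κ → ℕ} (hP : P.Ok Mk) (r : ℕ) (hr : r ≤ P.h) :
    P.F' r ∣ P.F 0 := (hP.F'F r hr).trans (F_dvd_zero hP r hr)

theorem FL_mono {P : Pr κ} {Mk : κ → ℕ} (hP : P.Ok Mk) : ∀ r ≤ P.h,
    P.F 0 * P.L 0 ≤ P.F r * P.L r
  | 0, _ => le_rfl
  | r + 1, hr => by
    have h1 := FL_mono hP r (by omega)
    have h2 := hP.size r (by omega)
    omega

theorem F_pos {P : Pr κ} {Mk : κ → ℕ} (hP : P.Ok Mk) (r : ℕ) (hr : r ≤ P.h) : 0 < P.F r :=
  Nat.pos_of_dvd_of_pos (F_dvd_zero hP r hr) hP.posF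

theorem F'_pos {P : Pr κ} {Mk : κ → ℕ} (hP : P.Ok Mk) (r : ℕ) (hr : r ≤ P.h) : 0 < P.F' r :=
  Nat.pos_of_dvd_of_pos (F'_dvd_zero hP r hr) hP.posF

theorem L_pos {P : Pr κ} {Mk : κ → ℕ} (hP : P.Ok Mk) (r : ℕ) : 0 < P.L r := by
  rw [Pr.L]
  refine Nat.mul_pos hP.posL (Finset.prod_pos (fun t _ => ?_))
  rw [Pr.Q]
  exact Pool.Agent.Helper27.T4.NN_pos (hP.prime t) _

/-- **SL-N1.** -/
theorem PP_le_trip {P : Pr κ} {Mk : κ → ℕ} (hP : P.Ok Mk) {I : ℕ} {X : ℕ → ℕ} {Ir : ℕ → ℕ}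
    (hX : Tg P I X Ir) (B B' : Finset ℕ) :
    ∃ (cl : ℕ → ℕ) (a : ℕ),
      PP P I X B B' ≤ (trip (range I) B B' cl (P.M / P.M') (P.F' P.h / P.M') a
        (5 * (P.F P.h / P.M') + 1)).card ∧
      ∀ c, ((range I).filter (fun i => cl i ≡ c [MOD (P.F' P.h / P.M')])).card ≤ Ir P.h := by
  classical
  obtain ⟨N, hN⟩ := hP.M'M
  obtain ⟨f', hf'⟩ := hP.M'F' P.h le_rfl
  obtain ⟨g, hg⟩ := hP.F'F P.h le_rfl
  have hM' := hP.posM'
  have hL := L_pos hP P.h
  have hf'pos : 0 < f' := by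
    have := F'_pos hP P.h le_rfl
    rw [hf'] at this
    exact Nat.pos_of_mul_pos_left this |> fun h => h
  set f := f' * g with hf
  have hFf : P.F P.h = P.M' * f := by rw [hg, hf', hf, mul_assoc]
  have e1 : P.M / P.M' = N := by rw [hN, Nat.mul_div_cancel_left _ hM']
  have e2 : P.F' P.h / P.M' = f' := by rw [hf', Nat.mul_div_cancel_left _ hM']
  have e3 : P.F P.h / P.M' = f := by rw [hFf, Nat.mul_div_cancel_left _ hM']
  rw [e1, e2, e3]
  -- inverse of `L`
  have hcop : (P.L P.h).Coprime f' := by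
    have h1 := hP.copL P.h le_rfl
    have h2 : f' ∣ P.F 0 := (Dvd.intro_left _ hf'.symm).trans (F'_dvd_zero hP P.h le_rfl)
    exact Nat.Coprime.coprime_dvd_right h2 h1
  obtain ⟨u, hu⟩ : ∃ u, P.L P.h * u ≡ 1 [MOD f'] := by
    by_cases h1 : f' = 1
    · rw [h1]
      exact ⟨0, Nat.modEq_one⟩
    · obtain ⟨u, _, hu⟩ := Nat.exists_mul_mod_eq_one_of_coprime hcop (by omega)
      refine ⟨u, ?_⟩
      rw [Nat.ModEq, hu, Nat.mod_eq_of_lt (by omega)]
  refine ⟨fun i => u * (X i / P.M'), ?_⟩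
  -- classes
  have hcls : ∀ c, ((range I).filter (fun i => u * (X i / P.M') ≡ c [MOD f'])).card ≤ Ir P.h := by
    intro c
    refine le_trans (card_le_card ?_) (hX.cls P.h le_rfl (P.M' * (P.L P.h * c)))
    intro i hi
    rw [mem_filter, mem_range] at hi ⊢
    refine ⟨hi.1, ?_⟩
    have hd : P.M' ∣ X i := (Dvd.intro _ rfl).trans (hX.dvd i hi.1)
    obtain ⟨x, hx⟩ := hd
    have hxd : X i / P.M' = x := by rw [hx, Nat.mul_div_cancel_left _ hM']
    have h1 : u * x ≡ c [MOD f'] := by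
      have := hi.2
      rwa [hxd] at this
    have h2 : P.L P.h * (u * x) ≡ P.L P.h * c [MOD f'] := h1.mul_left _
    have h3 : P.L P.h * (u * x) ≡ x [MOD f'] := by
      have := hu.mul_right x
      rwa [one_mul, mul_assoc] at this
    have h4 : x ≡ P.L P.h * c [MOD f'] := h3.symm.trans h2
    rw [hf', hx]
    exact Nat.ModEq.mul_left' P.M' h4
  by_cases hI : I = 0
  · subst hI
    refine ⟨0, ?_, hcls⟩
    simp [PP]
  · -- the smallest target
    obtain ⟨j, hj, hmin⟩ := Finset.exists_min_image (range I) X ⟨0, mem_range.mpr (by omega)⟩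
    rw [mem_range] at hj
    set D := P.M' * P.L P.h with hD
    have hDpos : 0 < D := Nat.mul_pos hM' hL
    have hFL : P.F P.h * P.L P.h = D * f := by rw [hFf, hD]; ring
    have h0 : P.F 0 * P.L0 ≤ D * f := by
      have h1 := FL_mono hP P.h le_rfl
      have h2 : P.L 0 = P.L0 := by simp [Pr.L]
      rw [h2, hFL] at h1
      exact h1
    refine ⟨(X j - 4 * (D * f)) / D, ?_, hcls⟩
    rw [PP]
    apply card_le_card
    intro q hq
    rw [mem_filter, mem_product, AP, mem_filter, mem_range, mem_range] at hq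
    obtain ⟨⟨hqi, hqB⟩, h1, h2, h3, h4⟩ := hq
    rw [trip, mem_filter, mem_product, mem_range]
    refine ⟨⟨hqi, hqB⟩, ?_⟩
    set τ := N * q.2.1 + q.2.2 with hτ
    have hT : P.M * P.L P.h * q.2.1 + P.M' * P.L P.h * q.2.2 = D * τ := by
      rw [hN, hτ, hD]; ring
    rw [hT] at h1 h2 h3 h4
    rw [hFL] at h4
    have h5 : X j ≤ X q.1 := hmin _ (mem_range.mpr hqi)
    have h6 : X q.1 < X j + P.F 0 * P.L0 := hX.win _ hqi _ hj
    refine ⟨⟨?_, ?_⟩, ?_⟩
    · -- lower end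
      apply Nat.div_le_of_le_mul
      omega
    · -- upper end
      have h7 : X j - 4 * (D * f) < D * ((X j - 4 * (D * f)) / D + 1) := by
        rw [mul_add, mul_one]
        have := Nat.div_add_mod (X j - 4 * (D * f)) D
        have := Nat.mod_lt (X j - 4 * (D * f)) hDpos
        omega
      have h8 : D * τ < D * ((X j - 4 * (D * f)) / D + (5 * f + 1)) := by
        have h9 : D * ((X j - 4 * (D * f)) / D + (5 * f + 1)) =
            D * ((X j - 4 * (D * f)) / D + 1) + 5 * (D * f) := by ring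
        rw [h9]
        omega
      exact lt_of_mul_lt_mul_left h8 (Nat.zero_le D)
    · -- the class
      have hd : P.M' ∣ X q.1 := (Dvd.intro _ rfl).trans (hX.dvd q.1 hqi)
      obtain ⟨x, hx⟩ := hd
      have hxd : X q.1 / P.M' = x := by rw [hx, Nat.mul_div_cancel_left _ hM']
      have h7 : P.M' * (P.L P.h * τ) ≡ P.M' * x [MOD P.M' * f'] := by
        have h8 : D * τ ≡ X q.1 [MOD P.F' P.h] := h3
        rw [hf', hx] at h8
        have h9 : D * τ = P.M' * (P.L P.h * τ) := by rw [hD, mul_assoc]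
        rwa [h9] at h8
      have h8 : P.L P.h * τ ≡ x [MOD f'] := Nat.ModEq.mul_left_cancel' hM'.ne' h7
      have h9 : u * (P.L P.h * τ) ≡ u * x [MOD f'] := h8.mul_left _
      have h10 : u * (P.L P.h * τ) ≡ τ [MOD f'] := by
        have := hu.mul_right τ
        rw [one_mul] at this
        have e : P.L P.h * u * τ = u * (P.L P.h * τ) := by ring
        rwa [e] at this
      show τ ≡ u * (X q.1 / P.M') [MOD f']
      rw [hxd]
      exact h10.symm.trans h9

end Pool.Agent.Helper18.T5
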